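import Pool.Agent.N204.HR.Stm
import Pool.Agent.N996.BP.Fin1

/-!
Project HR (helper204): automorphisms of the cohomology of the powers (task TF, helper966).
-/

set_option linter.unusedSectionVars false

open CategoryTheory AlgebraicGeometry TensorProduct

universe u

namespace Pool.Agent.N966.HR

open Module
open Pool.Agent.H914 Pool.Agent.H914.VarClass Pool.Agent.H914.VarClass.Obj
  Pool.Agent.H914.WeilCohomology
open Pool.Agent.Y133.Half
open Pool.Agent.N996.BP (IsCoordinateMap isCoordinateMap_iff)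
open Pool.Agent.N996.BP.Geo (IsCd)
open Pool.Agent.N204.HR (S_TF)

variable {k : Type u} [Field k] {𝒱 : VarClass k} {ops : CycleOps 𝒱}
  {W : WeilCohomology.{u, 0} ops} {A B X : 𝒱.Obj}

/-- Algebra automorphisms preserving the degrees and the traces. -/
structure GAut (W : WeilCohomology.{u, 0} ops) (A : 𝒱.Obj) where
  e : W.H A ≃ₐ[W.K] W.H A
  deg : ∀ i, ∀ x ∈ W.gr A i, e x ∈ W.gr A i
  tr : ∀ x, W.tr A (e x) = W.tr A x

lemma GAut.ph (α : GAut W A) {b : ℕ} {x : W.H A} (hx : x ∈ PH W A b) : α.e x ∈ PH W A b := by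
  refine PH.ind (p := fun x => α.e x ∈ PH W A b) ?_ ?_ ?_ hx
  · intro i hi x hx
    exact PH.of' hi (α.deg i x hx)
  · rw [map_zero]
    exact Submodule.zero_mem _
  · intro y y' hy hy'
    rw [map_add]
    exact Submodule.add_mem _ hy hy'

/-- The linear map on the cohomology of the product. -/
noncomputable def gl (α : W.H A ≃ₐ[W.K] W.H A) (β : W.H B ≃ₐ[W.K] W.H B) :
    Module.End W.K (W.H (A.prod B)) := extOp W α.toLinearMap β.toLinearMap

lemma gl_xp (α : W.H A ≃ₐ[W.K] W.H A) (β : W.H B ≃ₐ[W.K] W.H B) (a : W.H A) (b : W.H B) :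
    gl α β (xp W a b) = xp W (α a) (β b) := extOp_xp _ _ a b

lemma xp_one : xp W (1 : W.H A) (1 : W.H B) = 1 := by
  rw [xp_def, map_one, map_one, one_mul]

lemma xp_one_right (a : W.H A) : xp W a (1 : W.H B) = W.map (fst A B) a := by
  rw [xp_def, map_one, mul_one]

lemma xp_one_left (b : W.H B) : xp W (1 : W.H A) b = W.map (snd A B) b := by
  rw [xp_def, map_one, one_mul]

lemma gl_one (α : W.H A ≃ₐ[W.K] W.H A) (β : W.H B ≃ₐ[W.K] W.H B) : gl α β 1 = 1 := by
  rw [← xp_one (W := W) (A := A) (B := B), gl_xp, map_one, map_one]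

lemma gl_mul (α : GAut W A) (β : GAut W B) (x y : W.H (A.prod B)) :
    gl α.e β.e (x * y) = gl α.e β.e x * gl α.e β.e y := by
  refine xp_induction (p := fun x => gl α.e β.e (x * y) = gl α.e β.e x * gl α.e β.e y) ?_ ?_ x
  · intro a b ha hb
    rw [add_mul, map_add, ha, hb, map_add, add_mul]
  intro i j a ha b hb
  refine xp_induction (p := fun y => gl α.e β.e (xp W a b * y) =
    gl α.e β.e (xp W a b) * gl α.e β.e y) ?_ ?_ y
  · intro c d hc hd
    rw [mul_add, map_add, hc, hd, map_add, mul_add]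
  intro l m a' ha' b' hb'
  rw [xp_mul a a' b b' hb ha', map_smul, gl_xp, gl_xp, gl_xp, map_mul, map_mul,
    xp_mul (α.e a) (α.e a') (β.e b) (β.e b') (β.ph hb) (α.ph ha')]

lemma gl_inv (α : W.H A ≃ₐ[W.K] W.H A) (β : W.H B ≃ₐ[W.K] W.H B) (x : W.H (A.prod B)) :
    gl α.symm β.symm (gl α β x) = x := by
  refine xp_induction (p := fun x => gl α.symm β.symm (gl α β x) = x) ?_ ?_ x
  · intro a b ha hb
    rw [map_add, map_add, ha, hb]
  intro i j a ha b hb
  rw [gl_xp, gl_xp, AlgEquiv.symm_apply_apply, AlgEquiv.symm_apply_apply]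

lemma gl_inv' (α : W.H A ≃ₐ[W.K] W.H A) (β : W.H B ≃ₐ[W.K] W.H B) (x : W.H (A.prod B)) :
    gl α β (gl α.symm β.symm x) = x := by
  refine xp_induction (p := fun x => gl α β (gl α.symm β.symm x) = x) ?_ ?_ x
  · intro a b ha hb
    rw [map_add, map_add, ha, hb]
  intro i j a ha b hb
  rw [gl_xp, gl_xp, AlgEquiv.apply_symm_apply, AlgEquiv.apply_symm_apply]

lemma gl_proj (α : GAut W A) (β : GAut W B) (i : ℕ) (x : W.H (A.prod B)) :
    gl α.e β.e (proj (W.isInternal (A.prod B)) i x) =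
      proj (W.isInternal (A.prod B)) i (gl α.e β.e x) := by
  refine W.kunneth_induction (p := fun x => gl α.e β.e (proj (W.isInternal (A.prod B)) i x) =
    proj (W.isInternal (A.prod B)) i (gl α.e β.e x)) ?_ ?_ x
  · intro a b ha hb
    rw [map_add, map_add, ha, hb, map_add, map_add]
  intro p q a ha b hb
  have h1 : gl α.e β.e (W.map (fst A B) a * W.map (snd A B) b) =
      W.map (fst A B) (α.e a) * W.map (snd A B) (β.e b) := gl_xp _ _ a b
  have h2 : W.map (fst A B) a * W.map (snd A B) b ∈ W.gr (A.prod B) (p + q) :=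
    W.mul_mem (W.map_mem _ ha) (W.map_mem _ hb)
  have h3 : W.map (fst A B) (α.e a) * W.map (snd A B) (β.e b) ∈ W.gr (A.prod B) (p + q) :=
    W.mul_mem (W.map_mem _ (α.deg _ _ ha)) (W.map_mem _ (β.deg _ _ hb))
  rw [h1]
  by_cases h : p + q = i
  · subst h
    rw [proj_same _ h2, proj_same _ h3, h1]
  · rw [proj_ne _ h2 h, proj_ne _ h3 h, map_zero]

lemma gl_deg (α : GAut W A) (β : GAut W B) (i : ℕ) (x : W.H (A.prod B))
    (hx : x ∈ W.gr (A.prod B) i) : gl α.e β.e x ∈ W.gr (A.prod B) i := by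
  have h := gl_proj α β i x
  rw [proj_same _ hx] at h
  rw [h]
  exact proj_mem _ _ _

lemma gl_tr (α : GAut W A) (β : GAut W B) (x : W.H (A.prod B)) :
    W.tr (A.prod B) (gl α.e β.e x) = W.tr (A.prod B) x := by
  refine xp_induction (p := fun x => W.tr (A.prod B) (gl α.e β.e x) = W.tr (A.prod B) x) ?_ ?_ x
  · intro a b ha hb
    rw [map_add, map_add, ha, hb, map_add]
  intro i j a ha b hb
  rw [gl_xp, tr_xp, tr_xp, α.tr, β.tr]

/-- The automorphism of the cohomology of a product. -/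
noncomputable def gam (α : GAut W A) (β : GAut W B) : GAut W (A.prod B) where
  e := AlgEquiv.ofBijective (AlgHom.ofLinearMap (gl α.e β.e) (gl_one _ _) (gl_mul α β))
    ⟨fun x y h => by
      have h1 : gl α.e β.e x = gl α.e β.e y := h
      rw [← gl_inv α.e β.e x, h1, gl_inv], fun y => ⟨_, gl_inv' α.e β.e y⟩⟩
  deg := gl_deg α β
  tr := gl_tr α β

lemma gam_apply (α : GAut W A) (β : GAut W B) (x : W.H (A.prod B)) :
    (gam α β).e x = gl α.e β.e x := rfl

lemma gam_xp (α : GAut W A) (β : GAut W B) (a : W.H A) (b : W.H B) :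
    (gam α β).e (xp W a b) = xp W (α.e a) (β.e b) := gl_xp _ _ a b

/-- The automorphisms of the cohomology of the powers. -/
noncomputable def GG (g : GAut W X) : ∀ n, GAut W (pw X n)
  | 0 => g
  | n + 1 => gam (GG g n) g

lemma GG_xp (g : GAut W X) (n : ℕ) (a : W.H (pw X n)) (b : W.H X) :
    (GG g (n + 1)).e (xp W a b) = xp W ((GG g n).e a) (g.e b) := gam_xp _ _ a b

lemma GG_fst (g : GAut W X) (n : ℕ) (a : W.H (pw X n)) :
    (GG g (n + 1)).e (W.map (pfst X n) a) = W.map (pfst X n) ((GG g n).e a) := by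
  have h := GG_xp g n a 1
  rw [map_one, xp_one_right, xp_one_right] at h
  exact h

lemma GG_snd (g : GAut W X) (n : ℕ) (b : W.H X) :
    (GG g (n + 1)).e (W.map (psnd X n) b) = W.map (psnd X n) (g.e b) := by
  have h := GG_xp g n 1 b
  rw [map_one, xp_one_left, xp_one_left] at h
  exact h

lemma GG_prj (g : GAut W X) : ∀ (m : ℕ) (j : Fin (m + 1)) (x : W.H X),
    (GG g m).e (W.map (prj X m j) x) = W.map (prj X m j) (g.e x)
  | 0, j, x => by
    have h : ∀ y : W.H X, W.map (prj X 0 j) y = y := fun y => W.map_id X y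
    rw [h, h]
    rfl
  | m + 1, j, x => by
    refine Fin.lastCases ?_ (fun j => ?_) j
    · rw [prj_last, GG_snd]
    · rw [prj_castSucc, W.map_comp, W.map_comp, GG_fst, GG_prj g m j x]

/-- Induction on the classes on a power. -/
lemma pw_induction {n : ℕ} {p : W.H (pw X (n + 1)) → Prop}
    (hadd : ∀ a b : W.H (pw X (n + 1)), p a → p b → p (a + b))
    (h : ∀ (a : W.H (pw X n)) (b : W.H X), p (xp W a b)) (c : W.H (pw X (n + 1))) : p c :=
  xp_induction (X := pw X n) (Y := X) (p := p) hadd (fun _ _ a _ b _ => h a b) c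

theorem GG_map (g : GAut W X) : ∀ (n m : ℕ) (f : pw X m ⟶ pw X n), IsCd f →
    ∀ x, (GG g m).e (W.map f x) = W.map f ((GG g n).e x)
  | 0, m, f, hf, x => by
    obtain ⟨j, hj⟩ := hf 0
    have h : f = prj X m j := (Category.comp_id f).symm.trans hj
    rw [h]
    exact GG_prj g m j x
  | n + 1, m, f, hf, x => by
    have h1 : IsCd (f ≫ pfst X n) := fun i => by
      obtain ⟨j, hj⟩ := hf i.castSucc
      refine ⟨j, ?_⟩
      rw [prj_castSucc] at hj
      rw [Category.assoc]
      exact hj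
    obtain ⟨j, hj⟩ := hf (Fin.last _)
    rw [prj_last] at hj
    refine pw_induction (p := fun x => (GG g m).e (W.map f x) = W.map f ((GG g (n + 1)).e x))
      ?_ ?_ x
    · intro a b ha hb
      rw [map_add, map_add, ha, hb, map_add, map_add]
    intro a b
    rw [GG_xp]
    have h2 : ∀ (a : W.H (pw X n)) (b : W.H X), W.map f (xp W a b) =
        W.map (f ≫ pfst X n) a * W.map (prj X m j) b := by
      intro a b
      rw [← hj]
      exact map_xp f a b
    rw [h2, h2, map_mul, GG_map g n m _ h1, GG_prj]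

theorem tf : S_TF.{u} := by
  intro k _ 𝒱 ops W X g hdeg htr
  refine ⟨fun n => (GG ⟨g, hdeg, htr⟩ n).e, fun x => rfl, fun n => (GG ⟨g, hdeg, htr⟩ n).deg,
    fun n => (GG ⟨g, hdeg, htr⟩ n).tr, fun n m f hf => ?_⟩
  exact GG_map ⟨g, hdeg, htr⟩ n m f (isCoordinateMap_iff.1 hf)

end Pool.Agent.N966.HR

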